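import Pool.Agent.NH48.SC.Hyper

/-! # Fourier analysis on powers of `ZMod q`: weight of the low frequencies -/

set_option autoImplicit false

open Finset ComplexConjugate

namespace Pool.Agent.NH48.SC

section

variable {q : ℕ} [NeZero q] {ι : Type} [Fintype ι] [DecidableEq ι]

/-- the standard character -/
noncomputable def ee (a : ZMod q) : ℂ := ZMod.stdAddChar a

theorem ee_zero : ee (0 : ZMod q) = 1 := AddChar.map_zero_eq_one _

theorem ee_add (a b : ZMod q) : ee (a + b) = ee a * ee b := AddChar.map_add_eq_mul _ _ _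

theorem norm_ee (a : ZMod q) : ‖ee a‖ = 1 := by
  unfold ee
  exact AddChar.norm_apply _ _

theorem conj_ee (a : ZMod q) : conj (ee a) = ee (-a) := by
  have h1 : ee a * ee (-a) = 1 := by rw [← ee_add, add_neg_cancel, ee_zero]
  have h2 : ee a * conj (ee a) = 1 := by
    rw [Complex.mul_conj', norm_ee]
    simp
  have h3 : ee a ≠ 0 := by
    intro h
    rw [h, zero_mul] at h1
    exact zero_ne_one h1
  exact mul_left_cancel₀ h3 (h2.trans h1.symm)

theorem sum_ee_mul (a : ZMod q) : ∑ x : ZMod q, ee (a * x) = if a = 0 then (q : ℂ) else 0 := by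
  have h := AddChar.sum_mulShift (R := ZMod q) (R' := ℂ) (ψ := ZMod.stdAddChar) a
    (ZMod.isPrimitive_stdAddChar q)
  rw [ZMod.card] at h
  have h2 : ∑ x : ZMod q, ee (a * x) = ∑ x : ZMod q, ZMod.stdAddChar (x * a) := by
    refine sum_congr rfl fun x _ => ?_
    rw [mul_comm]
    rfl
  rw [h2, h]
  push_cast
  rfl

theorem ee_dot (a t : ι → ZMod q) : ee (a ⬝ᵥ t) = ∏ i, ee (a i * t i) := by
  unfold dotProduct
  have h : ∀ s : Finset ι, ee (∑ i ∈ s, a i * t i) = ∏ i ∈ s, ee (a i * t i) := by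
    intro s
    induction s using Finset.induction_on with
    | empty => simp [ee_zero]
    | insert i s hi ih => rw [sum_insert hi, prod_insert hi, ee_add, ih]
  exact h univ

theorem sum_ee (a : ι → ZMod q) :
    ∑ t : ι → ZMod q, ee (a ⬝ᵥ t) = if a = 0 then (Fintype.card (ι → ZMod q) : ℂ) else 0 := by
  have h1 : ∑ t : ι → ZMod q, ee (a ⬝ᵥ t) = ∏ i, ∑ x : ZMod q, ee (a i * x) := by
    rw [Finset.prod_univ_sum, Fintype.piFinset_univ]
    exact sum_congr rfl fun t _ => ee_dot a t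
  rw [h1]
  by_cases ha : a = 0
  · rw [if_pos ha, ha]
    simp only [Pi.zero_apply, zero_mul, ee_zero, sum_const, card_univ, nsmul_eq_mul, mul_one,
      prod_const, Fintype.card_fun, ZMod.card]
    push_cast
    rfl
  · rw [if_neg ha]
    obtain ⟨i, hi⟩ : ∃ i, a i ≠ 0 := by
      by_contra h
      push Not at h
      exact ha (funext h)
    apply prod_eq_zero (mem_univ i)
    rw [sum_ee_mul, if_neg hi]

/-- Parseval's identity -/
theorem parseval (F : (ι → ZMod q) → ℂ) :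
    ∑ α : ι → ZMod q, ‖∑ t, F t * ee (α ⬝ᵥ t)‖ ^ 2 =
      Fintype.card (ι → ZMod q) * ∑ t, ‖F t‖ ^ 2 := by
  have h : ((∑ α : ι → ZMod q, ‖∑ t, F t * ee (α ⬝ᵥ t)‖ ^ 2 : ℝ) : ℂ) =
      ((Fintype.card (ι → ZMod q) * ∑ t, ‖F t‖ ^ 2 : ℝ) : ℂ) := by
    push_cast
    have e1 : ∀ α : ι → ZMod q, ((‖∑ t, F t * ee (α ⬝ᵥ t)‖ : ℂ)) ^ 2 =
        ∑ t, ∑ t', F t * conj (F t') * ee ((t - t') ⬝ᵥ α) := by
      intro α
      rw [← Complex.mul_conj', map_sum, Finset.sum_mul_sum]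
      refine sum_congr rfl fun t _ => sum_congr rfl fun t' _ => ?_
      rw [map_mul, conj_ee, sub_dotProduct, sub_eq_add_neg, ee_add, dotProduct_comm t α,
        dotProduct_comm t' α]
      ring
    rw [sum_congr rfl fun α _ => e1 α, Finset.sum_comm, Finset.mul_sum]
    refine sum_congr rfl fun t _ => ?_
    rw [Finset.sum_comm, Finset.sum_eq_single t]
    · rw [← Finset.mul_sum, sum_ee, if_pos (sub_self t), Complex.mul_conj']
      ring
    · intro t' _ ht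
      rw [← Finset.mul_sum, sum_ee, if_neg, mul_zero]
      intro h0
      exact ht (sub_eq_zero.1 h0).symm
    · intro h0
      exact absurd (mem_univ _) h0
  exact_mod_cast h

/-- the support -/
noncomputable def su (α : ι → ZMod q) : Finset ι := univ.filter fun i => α i ≠ 0

theorem re_mem {J : ℕ} (α : ι → ZMod q) (hα : (su α).card ≤ J) (c : ℂ) :
    (fun t : ι → ZMod q => (c * ee (α ⬝ᵥ t)).re) ∈ Jn ι (ZMod q) univ J ∧
    (fun t : ι → ZMod q => (c * ee (α ⬝ᵥ t)).im) ∈ Jn ι (ZMod q) univ J := by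
  have h : ∀ x y : ι → ZMod q, (∀ i ∈ su α, x i = y i) → α ⬝ᵥ x = α ⬝ᵥ y := by
    intro x y hxy
    unfold dotProduct
    refine sum_congr rfl fun i _ => ?_
    by_cases hi : α i = 0
    · rw [hi, zero_mul, zero_mul]
    · rw [hxy i (mem_filter.2 ⟨mem_univ _, hi⟩)]
  constructor
  · apply Submodule.subset_span
    exact ⟨su α, subset_univ _, hα, fun x y hxy => by simp only [h x y hxy]⟩
  · apply Submodule.subset_span
    exact ⟨su α, subset_univ _, hα, fun x y hxy => by simp only [h x y hxy]⟩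

/-- fourth moments of complex functions of low degree -/
theorem hyperC {J : ℕ} (p : (ι → ZMod q) → ℂ)
    (hre : (fun t => (p t).re) ∈ Jn ι (ZMod q) univ J)
    (him : (fun t => (p t).im) ∈ Jn ι (ZMod q) univ J) :
    (Fintype.card (ι → ZMod q) : ℝ) * ∑ t, ‖p t‖ ^ 4 ≤
      (16 * q : ℝ) ^ J * (∑ t, ‖p t‖ ^ 2) ^ 2 := by
  have h1 := hyper univ J _ hre
  have h2 := hyper univ J _ him
  rw [ZMod.card] at h1 h2
  obtain ⟨n, hn⟩ : ∃ n : ℝ, n = Fintype.card (ι → ZMod q) := ⟨_, rfl⟩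
  obtain ⟨C, hC⟩ : ∃ C : ℝ, C = (16 * q : ℝ) ^ J := ⟨_, rfl⟩
  obtain ⟨a, ha⟩ : ∃ a : ℝ, a = ∑ t, (p t).re ^ 2 := ⟨_, rfl⟩
  obtain ⟨b, hb⟩ : ∃ b : ℝ, b = ∑ t, (p t).im ^ 2 := ⟨_, rfl⟩
  have ha0 : 0 ≤ a := by rw [ha]; exact sum_nonneg fun t _ => sq_nonneg _
  have hb0 : 0 ≤ b := by rw [hb]; exact sum_nonneg fun t _ => sq_nonneg _
  have hC0 : 0 ≤ C := by rw [hC]; positivity
  have hn0 : 0 ≤ n := by rw [hn]; positivity
  rw [← hn, ← hC, ← ha] at h1
  rw [← hn, ← hC, ← hb] at h2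
  rw [← hn, ← hC]
  have h3 : n * ∑ t, (p t).re ^ 2 * (p t).im ^ 2 ≤ C * (a * b) := by
    apply abs_le_of_sq_le_sq' _ (by positivity) |>.2
    calc (n * ∑ t, (p t).re ^ 2 * (p t).im ^ 2) ^ 2 =
          n * n * (∑ t, (p t).re ^ 2 * (p t).im ^ 2) ^ 2 := by ring
      _ ≤ n * n * ((∑ t, (p t).re ^ 4) * ∑ t, (p t).im ^ 4) :=
          mul_le_mul_of_nonneg_left (cs4 _ _) (by positivity)
      _ = (n * ∑ t, (p t).re ^ 4) * (n * ∑ t, (p t).im ^ 4) := by ring
      _ ≤ (C * a ^ 2) * (C * b ^ 2) := by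
          refine mul_le_mul h1 h2 (mul_nonneg hn0 (sum_nonneg fun t _ => ?_)) (by positivity)
          exact Even.pow_nonneg (by decide) _
      _ = (C * (a * b)) ^ 2 := by ring
  have e1 : ∀ t, ‖p t‖ ^ 2 = (p t).re ^ 2 + (p t).im ^ 2 := by
    intro t
    rw [← Complex.normSq_eq_norm_sq, Complex.normSq_apply]
    ring
  have e2 : ∑ t, ‖p t‖ ^ 2 = a + b := by
    rw [sum_congr rfl fun t _ => e1 t, sum_add_distrib, ← ha, ← hb]
  have e3 : ∑ t, ‖p t‖ ^ 4 = ∑ t, (p t).re ^ 4 + 2 * ∑ t, (p t).re ^ 2 * (p t).im ^ 2 +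
      ∑ t, (p t).im ^ 4 := by
    rw [Finset.mul_sum, ← sum_add_distrib, ← sum_add_distrib]
    refine sum_congr rfl fun t _ => ?_
    have : ‖p t‖ ^ 4 = (‖p t‖ ^ 2) ^ 2 := by ring
    rw [this, e1]
    ring
  rw [e2, e3]
  nlinarith

/-- the weight of a bounded nonnegative function on the low frequencies -/
theorem low_weight (J : ℕ) (h : (ι → ZMod q) → ℝ) (m : ℝ) (hm : 0 ≤ m) (h0 : ∀ t, 0 ≤ h t)
    (h1 : ∀ t, h t ≤ m) :
    (∑ α with (su α).card ≤ J, ‖∑ t, (h t : ℂ) * ee (α ⬝ᵥ t)‖ ^ 2) ^ 2 ≤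
      m * (16 * q : ℝ) ^ J * Fintype.card (ι → ZMod q) * (∑ t, h t) ^ 3 := by
  obtain ⟨n, hn⟩ : ∃ n : ℝ, n = Fintype.card (ι → ZMod q) := ⟨_, rfl⟩
  have hn0 : 0 < n := by
    rw [hn]
    have : 0 < Fintype.card (ι → ZMod q) := Fintype.card_pos
    exact_mod_cast this
  obtain ⟨C, hC⟩ : ∃ C : ℝ, C = (16 * q : ℝ) ^ J := ⟨_, rfl⟩
  have hC0 : 0 ≤ C := by rw [hC]; positivity
  obtain ⟨g, hg⟩ : ∃ g : (ι → ZMod q) → ℂ, g = fun α => ∑ t, (h t : ℂ) * ee (α ⬝ᵥ t) := ⟨_, rfl⟩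
  -- the low part
  obtain ⟨p, hp⟩ : ∃ p : (ι → ZMod q) → ℂ, p = fun t =>
    ∑ α with (su α).card ≤ J, (1 / (n : ℂ) * conj (g α)) * ee (α ⬝ᵥ t) := ⟨_, rfl⟩
  obtain ⟨W, hW⟩ : ∃ W : ℝ, W = ∑ α with (su α).card ≤ J, ‖g α‖ ^ 2 := ⟨_, rfl⟩
  have hgoal : (∑ α with (su α).card ≤ J, ‖∑ t, (h t : ℂ) * ee (α ⬝ᵥ t)‖ ^ 2) = W := by
    rw [hW, hg]
  rw [hgoal, ← hn, ← hC]
  have hW0 : 0 ≤ W := by rw [hW]; exact sum_nonneg fun α _ => sq_nonneg _
  -- `p` has low degree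
  have hre : (fun t => (p t).re) ∈ Jn ι (ZMod q) univ J := by
    have : (fun t => (p t).re) = ∑ α with (su α).card ≤ J, fun t : ι → ZMod q =>
        ((1 / (n : ℂ) * conj (g α)) * ee (α ⬝ᵥ t)).re := by
      funext t
      rw [hp, Finset.sum_apply, Complex.re_sum]
    rw [this]
    exact Submodule.sum_mem _ fun α hα => (re_mem α (mem_filter.1 hα).2 _).1
  have him : (fun t => (p t).im) ∈ Jn ι (ZMod q) univ J := by
    have : (fun t => (p t).im) = ∑ α with (su α).card ≤ J, fun t : ι → ZMod q =>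
        ((1 / (n : ℂ) * conj (g α)) * ee (α ⬝ᵥ t)).im := by
      funext t
      rw [hp, Finset.sum_apply, Complex.im_sum]
    rw [this]
    exact Submodule.sum_mem _ fun α hα => (re_mem α (mem_filter.1 hα).2 _).2
  have hh := hyperC p hre him
  rw [← hn, ← hC] at hh
  -- `∑ h p = W / n`
  have e1 : ∑ t, (h t : ℂ) * p t = ((W / n : ℝ) : ℂ) := by
    rw [hp, hW]
    simp only [Finset.mul_sum]
    rw [Finset.sum_comm]
    push_cast
    rw [Finset.sum_div]
    refine sum_congr rfl fun α _ => ?_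
    have e2 : ∑ t, (h t : ℂ) * (1 / (n : ℂ) * conj (g α) * ee (α ⬝ᵥ t)) =
        1 / (n : ℂ) * conj (g α) * g α := by
      conv_rhs => rw [hg]
      rw [Finset.mul_sum]
      refine sum_congr rfl fun t _ => ?_
      rw [hg]
      ring
    rw [e2, mul_assoc, mul_comm (conj (g α)), Complex.mul_conj']
    ring
  -- `∑ |p| ^ 2 = W / n`
  have e3 : ∑ t, ‖p t‖ ^ 2 = W / n := by
    have e4 := parseval (fun α : ι → ZMod q =>
      if (su α).card ≤ J then 1 / (n : ℂ) * conj (g α) else 0)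
    have e5 : ∀ t : ι → ZMod q, ∑ α : ι → ZMod q,
        (if (su α).card ≤ J then 1 / (n : ℂ) * conj (g α) else 0) * ee (t ⬝ᵥ α) = p t := by
      intro t
      rw [hp]
      show _ = ∑ α with (su α).card ≤ J, (1 / (n : ℂ) * conj (g α)) * ee (α ⬝ᵥ t)
      rw [sum_filter]
      refine sum_congr rfl fun α _ => ?_
      rw [dotProduct_comm]
      split_ifs
      · rfl
      · rw [zero_mul]
    rw [sum_congr rfl fun t _ => by rw [e5 t], ← hn] at e4
    rw [e4, hW, sum_filter, Finset.sum_div, Finset.mul_sum]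
    refine sum_congr rfl fun α _ => ?_
    split_ifs
    · rw [norm_mul, norm_div, norm_one, RCLike.norm_conj, Complex.norm_real, Real.norm_eq_abs,
        abs_of_pos hn0]
      field_simp
    · simp
  -- the estimates
  obtain ⟨s, hs⟩ : ∃ s, s = ∑ t, h t := ⟨_, rfl⟩
  have hs0 : 0 ≤ s := by rw [hs]; exact sum_nonneg fun t _ => h0 t
  have e6 : W / n ≤ ∑ t, h t * ‖p t‖ := by
    have e7 : ‖∑ t, (h t : ℂ) * p t‖ = W / n := by
      rw [e1, Complex.norm_real, Real.norm_eq_abs, abs_of_nonneg (by positivity)]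
    rw [← e7]
    refine (norm_sum_le _ _).trans (le_of_eq (sum_congr rfl fun t _ => ?_))
    rw [norm_mul, Complex.norm_real, Real.norm_eq_abs, abs_of_nonneg (h0 t)]
  obtain ⟨Q, hQ⟩ : ∃ Q, Q = ∑ t, h t * ‖p t‖ ^ 2 := ⟨_, rfl⟩
  have hQ0 : 0 ≤ Q := by rw [hQ]; exact sum_nonneg fun t _ => mul_nonneg (h0 t) (sq_nonneg _)
  have e8 : (∑ t, h t * ‖p t‖) ^ 2 ≤ s * Q := by
    have := Finset.sum_mul_sq_le_sq_mul_sq univ (fun t => Real.sqrt (h t))
      (fun t => Real.sqrt (h t) * ‖p t‖)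
    calc (∑ t, h t * ‖p t‖) ^ 2 = (∑ t, Real.sqrt (h t) * (Real.sqrt (h t) * ‖p t‖)) ^ 2 := by
          congr 1
          refine sum_congr rfl fun t _ => ?_
          rw [← mul_assoc, Real.mul_self_sqrt (h0 t)]
      _ ≤ _ := this
      _ = s * Q := by
          rw [hs, hQ]
          congr 1
          · exact sum_congr rfl fun t _ => Real.sq_sqrt (h0 t)
          · refine sum_congr rfl fun t _ => ?_
            rw [mul_pow, Real.sq_sqrt (h0 t)]
  have e9 : Q ^ 2 ≤ m * s * ∑ t, ‖p t‖ ^ 4 := by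
    calc Q ^ 2 ≤ (∑ t, h t ^ 2) * ∑ t, (‖p t‖ ^ 2) ^ 2 := by
          rw [hQ]
          exact Finset.sum_mul_sq_le_sq_mul_sq univ h (fun t => ‖p t‖ ^ 2)
      _ ≤ (m * s) * ∑ t, ‖p t‖ ^ 4 := by
          apply mul_le_mul
          · rw [hs, Finset.mul_sum]
            refine sum_le_sum fun t _ => ?_
            rw [sq]
            exact mul_le_mul_of_nonneg_right (h1 t) (h0 t)
          · exact le_of_eq (sum_congr rfl fun t _ => by ring)
          · exact sum_nonneg fun t _ => sq_nonneg _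
          · positivity
  have e10 : n * Q ^ 2 ≤ m * s * (C * (W / n) ^ 2) := by
    calc n * Q ^ 2 ≤ n * (m * s * ∑ t, ‖p t‖ ^ 4) := mul_le_mul_of_nonneg_left e9 hn0.le
      _ = m * s * (n * ∑ t, ‖p t‖ ^ 4) := by ring
      _ ≤ m * s * (C * (W / n) ^ 2) := by
          rw [← e3]
          exact mul_le_mul_of_nonneg_left hh (by positivity)
  rcases hW0.eq_or_lt with h00 | hWpos
  · rw [← h00, ← hs]
    have : 0 ≤ m * C * n * s ^ 3 := by positivity
    simpa using this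
  · obtain ⟨w, hw⟩ : ∃ w, w = W / n := ⟨_, rfl⟩
    have hw0 : 0 < w := by rw [hw]; positivity
    rw [← hw] at e6 e10
    have e11 : w ^ 2 ≤ s * Q := (pow_le_pow_left₀ hw0.le e6 2).trans e8
    have e12 : n * (w ^ 2) ^ 2 ≤ s ^ 2 * (m * s * (C * w ^ 2)) := by
      calc n * (w ^ 2) ^ 2 ≤ n * (s * Q) ^ 2 :=
            mul_le_mul_of_nonneg_left (pow_le_pow_left₀ (by positivity) e11 2) hn0.le
        _ = s ^ 2 * (n * Q ^ 2) := by ring
        _ ≤ _ := mul_le_mul_of_nonneg_left e10 (by positivity)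
    have e13 : n * w ^ 2 ≤ m * C * s ^ 3 := by
      have hw2 : 0 < w ^ 2 := by positivity
      apply le_of_mul_le_mul_right _ hw2
      calc n * w ^ 2 * w ^ 2 = n * (w ^ 2) ^ 2 := by ring
        _ ≤ _ := e12
        _ = _ := by ring
    rw [← hs]
    have e14 : W = n * w := by rw [hw]; field_simp
    rw [e14]
    calc (n * w) ^ 2 = n * (n * w ^ 2) := by ring
      _ ≤ n * (m * C * s ^ 3) := mul_le_mul_of_nonneg_left e13 hn0.le
      _ = _ := by ring

end

end Pool.Agent.NH48.SC
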