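import Mathlib

/-! # Fourth moments of functions of low degree on a finite product space -/

set_option autoImplicit false

open Finset

namespace Pool.Agent.NH48.SC

section

variable {ι A : Type} [Fintype ι] [DecidableEq ι] [Fintype A] [Nonempty A]

/-- sums of functions that depend on at most `J` coordinates, all in `S` -/
def Jn (ι A : Type) (S : Finset ι) (J : ℕ) : Submodule ℝ ((ι → A) → ℝ) :=
  Submodule.span ℝ {f | ∃ U : Finset ι, U ⊆ S ∧ U.card ≤ J ∧
    ∀ x y : ι → A, (∀ i ∈ U, x i = y i) → f x = f y}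

/-- fixing a coordinate -/
def up (i : ι) (a : A) : ((ι → A) → ℝ) →ₗ[ℝ] ((ι → A) → ℝ) where
  toFun f t := f (Function.update t i a)
  map_add' _ _ := rfl
  map_smul' _ _ := rfl

/-- averaging over a coordinate -/
noncomputable def av (i : ι) : ((ι → A) → ℝ) →ₗ[ℝ] ((ι → A) → ℝ) :=
  (1 / (Fintype.card A : ℝ)) • ∑ a : A, up i a

omit [Fintype ι] [Fintype A] [Nonempty A] in
theorem up_apply (i : ι) (a : A) (f : (ι → A) → ℝ) (t : ι → A) :
    up i a f t = f (Function.update t i a) := rfl

omit [Fintype ι] [Nonempty A] in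
theorem av_apply (i : ι) (f : (ι → A) → ℝ) (t : ι → A) :
    av i f t = 1 / (Fintype.card A : ℝ) * ∑ a : A, f (Function.update t i a) := by
  simp [av, up]

omit [Fintype ι] [Fintype A] [Nonempty A] in
theorem up_gen {S : Finset ι} {J : ℕ} {i : ι} {a : A} {f : (ι → A) → ℝ} {U : Finset ι}
    (hU : U ⊆ insert i S) (hJ : (U.erase i).card ≤ J)
    (hf : ∀ x y : ι → A, (∀ i ∈ U, x i = y i) → f x = f y) : up i a f ∈ Jn ι A S J := by
  apply Submodule.subset_span
  refine ⟨U.erase i, ?_, hJ, fun x y hxy => ?_⟩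
  · intro j hj
    rw [mem_erase] at hj
    rcases mem_insert.1 (hU hj.2) with h | h
    · exact absurd h hj.1
    · exact h
  · apply hf
    intro j hj
    by_cases hij : j = i
    · subst hij
      simp
    · rw [Function.update_of_ne hij, Function.update_of_ne hij]
      exact hxy j (mem_erase.2 ⟨hij, hj⟩)

omit [Fintype ι] [Fintype A] [Nonempty A] in
theorem up_mem {S : Finset ι} {J : ℕ} {i : ι} {a : A} {f : (ι → A) → ℝ}
    (hf : f ∈ Jn ι A (insert i S) J) : up i a f ∈ Jn ι A S J := by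
  have h : Jn ι A (insert i S) J ≤ (Jn ι A S J).comap (up i a) := by
    apply Submodule.span_le.2
    rintro f ⟨U, hU, hJ, hf⟩
    exact up_gen hU ((card_le_card (erase_subset _ _)).trans hJ) hf
  exact h hf

omit [Fintype ι] [Nonempty A] in
theorem av_mem {S : Finset ι} {J : ℕ} {i : ι} {f : (ι → A) → ℝ}
    (hf : f ∈ Jn ι A (insert i S) J) : av i f ∈ Jn ι A S J := by
  have h : av i f = (1 / (Fintype.card A : ℝ)) • ∑ a : A, up i a f := by
    simp [av]
  rw [h]
  exact Submodule.smul_mem _ _ (Submodule.sum_mem _ fun a _ => up_mem hf)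

omit [Fintype ι] in
theorem sub_mem {S : Finset ι} {J : ℕ} {i : ι} {a : A} {f : (ι → A) → ℝ}
    (hf : f ∈ Jn ι A (insert i S) (J + 1)) : up i a f - av i f ∈ Jn ι A S J := by
  have hA : (Fintype.card A : ℝ) ≠ 0 := by
    have : 0 < Fintype.card A := Fintype.card_pos
    positivity
  have h : Jn ι A (insert i S) (J + 1) ≤ (Jn ι A S J).comap (up i a - av i) := by
    apply Submodule.span_le.2
    rintro f ⟨U, hU, hJ, hf⟩
    show up i a f - av i f ∈ Jn ι A S J
    by_cases hi : i ∈ U
    · have hc : (U.erase i).card ≤ J := by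
        rw [card_erase_of_mem hi]
        omega
      have h1 : ∀ b : A, up i b f ∈ Jn ι A S J := fun b => up_gen hU hc hf
      have h2 : av i f = (1 / (Fintype.card A : ℝ)) • ∑ a : A, up i a f := by
        simp [av]
      rw [h2]
      exact Submodule.sub_mem _ (h1 a) (Submodule.smul_mem _ _ (Submodule.sum_mem _ fun b _ => h1 b))
    · have h1 : ∀ b : A, up i b f = f := by
        intro b
        funext t
        apply hf
        intro j hj
        rw [Function.update_of_ne]
        intro hji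
        exact hi (hji ▸ hj)
      have h2 : av i f = f := by
        have : av i f = (1 / (Fintype.card A : ℝ)) • ∑ a : A, up i a f := by
          simp [av]
        rw [this, sum_congr rfl fun b _ => h1 b, sum_const, card_univ]
        funext t
        rw [Pi.smul_apply, Pi.smul_apply, nsmul_eq_mul, smul_eq_mul]
        field_simp
      rw [h1 a, h2, sub_self]
      exact Submodule.zero_mem _
  exact h hf

omit [Fintype ι] [DecidableEq ι] [Fintype A] [Nonempty A] in
theorem const_of_mem {S : Finset ι} {J : ℕ} (h0 : S = ∅ ∨ J = 0) {f : (ι → A) → ℝ}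
    (hf : f ∈ Jn ι A S J) : ∀ x y, f x = f y := by
  let P : Submodule ℝ ((ι → A) → ℝ) :=
    { carrier := {f | ∀ x y, f x = f y}
      add_mem' := fun {a b} ha hb x y => by
        simp only [Pi.add_apply]
        rw [ha x y, hb x y]
      zero_mem' := fun x y => rfl
      smul_mem' := fun c a ha x y => by
        simp only [Pi.smul_apply]
        rw [ha x y] }
  have h : Jn ι A S J ≤ P := by
    apply Submodule.span_le.2
    rintro f ⟨U, hU, hJ, hf⟩
    show ∀ x y, f x = f y
    intro x y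
    apply hf
    have : U = ∅ := by
      rcases h0 with h0 | h0
      · rw [h0] at hU
        exact subset_empty.1 hU
      · rw [h0] at hJ
        exact card_eq_zero.1 (by omega)
    rw [this]
    intro i hi
    exact absurd hi (notMem_empty i)
  exact h hf

omit [Nonempty A] in
/-- summing over a coordinate twice -/
theorem sum_update (i : ι) (F : (ι → A) → ℝ) :
    ∑ t, ∑ a : A, F (Function.update t i a) = Fintype.card A * ∑ t, F t := by
  rw [← Fintype.sum_prod_type' (f := fun t a => F (Function.update t i a))]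
  have h : ∑ x : (ι → A) × A, F (Function.update x.1 i x.2) = ∑ x : (ι → A) × A, F x.1 := by
    apply Finset.sum_nbij' (fun x => (Function.update x.1 i x.2, x.1 i))
      (fun x => (Function.update x.1 i x.2, x.1 i))
    · intro x _; exact mem_univ _
    · intro x _; exact mem_univ _
    · intro x _; simp
    · intro x _; simp
    · intro x _; simp
  rw [h, Fintype.sum_prod_type]
  simp only [sum_const, card_univ, nsmul_eq_mul]
  rw [← Finset.mul_sum]

/-- Cauchy–Schwarz, with fourth moments -/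
theorem cs4 {T : Type} [Fintype T] (a b : T → ℝ) :
    (∑ t, a t ^ 2 * b t ^ 2) ^ 2 ≤ (∑ t, a t ^ 4) * ∑ t, b t ^ 4 := by
  have h := Finset.sum_mul_sq_le_sq_mul_sq univ (fun t => a t ^ 2) (fun t => b t ^ 2)
  calc (∑ t, a t ^ 2 * b t ^ 2) ^ 2 ≤ (∑ t, (a t ^ 2) ^ 2) * ∑ t, (b t ^ 2) ^ 2 := h
    _ = _ := by
      congr 1
      · exact sum_congr rfl fun t _ => by ring
      · exact sum_congr rfl fun t _ => by ring

theorem hyper (S : Finset ι) : ∀ (J : ℕ) (f : (ι → A) → ℝ), f ∈ Jn ι A S J →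
    (Fintype.card (ι → A) : ℝ) * ∑ t, f t ^ 4 ≤
      (16 * Fintype.card A : ℝ) ^ J * (∑ t, f t ^ 2) ^ 2 := by
  have hA1 : (1 : ℝ) ≤ Fintype.card A := by
    have : 0 < Fintype.card A := Fintype.card_pos
    exact_mod_cast this
  have hC1 : (1 : ℝ) ≤ 16 * Fintype.card A := by linarith
  have hconst : ∀ (J : ℕ) (f : (ι → A) → ℝ), (∀ x y, f x = f y) →
      (Fintype.card (ι → A) : ℝ) * ∑ t, f t ^ 4 ≤
      (16 * Fintype.card A : ℝ) ^ J * (∑ t, f t ^ 2) ^ 2 := by
    intro J f hf
    obtain ⟨x0⟩ : Nonempty (ι → A) := inferInstance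
    have h1 : ∀ x, f x = f x0 := fun x => hf x x0
    simp only [h1, sum_const, card_univ, nsmul_eq_mul]
    have h2 : (1 : ℝ) ≤ (16 * Fintype.card A : ℝ) ^ J := one_le_pow₀ hC1
    calc (Fintype.card (ι → A) : ℝ) * (Fintype.card (ι → A) * f x0 ^ 4)
        = 1 * (Fintype.card (ι → A) * f x0 ^ 2) ^ 2 := by ring
      _ ≤ _ := mul_le_mul_of_nonneg_right h2 (sq_nonneg _)
  induction S using Finset.induction_on with
  | empty =>
    intro J f hf
    exact hconst J f (const_of_mem (Or.inl rfl) hf)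
  | insert i S hi ih =>
    intro J f hf
    rcases Nat.eq_zero_or_pos J with rfl | hJ
    · exact hconst 0 f (const_of_mem (Or.inr rfl) hf)
    obtain ⟨J, rfl⟩ : ∃ J', J = J' + 1 := ⟨J - 1, by omega⟩
    obtain ⟨n, hn⟩ : ∃ n : ℝ, n = Fintype.card (ι → A) := ⟨_, rfl⟩
    obtain ⟨r, hr⟩ : ∃ r : ℝ, r = Fintype.card A := ⟨_, rfl⟩
    obtain ⟨C, hC⟩ : ∃ C : ℝ, C = 16 * r := ⟨_, rfl⟩
    have hr1 : 1 ≤ r := by rw [hr]; exact hA1
    have hr0 : 0 < r := by linarith
    have hn0 : 0 ≤ n := by rw [hn]; positivity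
    have hC0 : 0 < C := by rw [hC]; linarith
    set p := av i f with hp
    set g : A → (ι → A) → ℝ := fun a => up i a f - av i f with hg
    have hsplit : ∀ t a, f (Function.update t i a) = p t + g a t := by
      intro t a
      simp only [hg, hp, Pi.sub_apply, up_apply]
      ring
    have hgsum : ∀ t, ∑ a, g a t = 0 := by
      intro t
      simp only [hg, Pi.sub_apply, up_apply, av_apply, sum_sub_distrib, sum_const, card_univ,
        nsmul_eq_mul]
      rw [← hr]
      field_simp
      ring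
    -- the moments
    have h2 : r * ∑ t, f t ^ 2 = r * ∑ t, p t ^ 2 + ∑ a, ∑ t, g a t ^ 2 := by
      rw [hr, ← sum_update i (fun t => f t ^ 2), ← hr]
      rw [Finset.sum_comm (f := fun a t => g a t ^ 2), Finset.mul_sum, ← sum_add_distrib]
      refine sum_congr rfl fun t _ => ?_
      have e1 : ∀ a, f (Function.update t i a) ^ 2 = p t ^ 2 + 2 * p t * g a t + g a t ^ 2 := by
        intro a
        rw [hsplit]
        ring
      rw [sum_congr rfl fun a _ => e1 a, sum_add_distrib, sum_add_distrib, ← Finset.mul_sum,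
        hgsum, sum_const, card_univ, nsmul_eq_mul, ← hr]
      ring
    have h4 : r * ∑ t, f t ^ 4 ≤ r * ∑ t, p t ^ 4 + ∑ a, (8 * ∑ t, p t ^ 2 * g a t ^ 2 +
        3 * ∑ t, g a t ^ 4) := by
      rw [hr, ← sum_update i (fun t => f t ^ 4), ← hr]
      have e2 : ∑ a, (8 * ∑ t, p t ^ 2 * g a t ^ 2 + 3 * ∑ t, g a t ^ 4) =
          ∑ t, ∑ a, (8 * (p t ^ 2 * g a t ^ 2) + 3 * g a t ^ 4) := by
        rw [Finset.sum_comm (f := fun t a => (8 * (p t ^ 2 * g a t ^ 2) + 3 * g a t ^ 4))]
        refine sum_congr rfl fun a _ => ?_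
        rw [sum_add_distrib, Finset.mul_sum, Finset.mul_sum]
      rw [e2, Finset.mul_sum, ← sum_add_distrib]
      refine sum_le_sum fun t _ => ?_
      have e1 : ∀ a, f (Function.update t i a) ^ 4 ≤ p t ^ 4 + 4 * p t ^ 3 * g a t +
          (8 * (p t ^ 2 * g a t ^ 2) + 3 * g a t ^ 4) := by
        intro a
        rw [hsplit]
        have : 0 ≤ 2 * (g a t ^ 2 * (p t - g a t) ^ 2) := by positivity
        nlinarith
      calc ∑ a, f (Function.update t i a) ^ 4 ≤ ∑ a, (p t ^ 4 + 4 * p t ^ 3 * g a t +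
          (8 * (p t ^ 2 * g a t ^ 2) + 3 * g a t ^ 4)) := sum_le_sum fun a _ => e1 a
        _ = r * p t ^ 4 + ∑ a, (8 * (p t ^ 2 * g a t ^ 2) + 3 * g a t ^ 4) := by
          rw [sum_add_distrib, sum_add_distrib, ← Finset.mul_sum, hgsum, sum_const, card_univ,
            nsmul_eq_mul, ← hr]
          ring
    -- induction
    have hp' : n * ∑ t, p t ^ 4 ≤ C ^ (J + 1) * (∑ t, p t ^ 2) ^ 2 := by
      rw [hn, hC, hr]
      exact ih (J + 1) p (av_mem hf)
    have hg' : ∀ a, n * ∑ t, g a t ^ 4 ≤ C ^ J * (∑ t, g a t ^ 2) ^ 2 := by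
      intro a
      rw [hn, hC, hr]
      exact ih J (g a) (sub_mem hf)
    obtain ⟨a0, ha0⟩ : ∃ x, x = ∑ t, p t ^ 2 := ⟨_, rfl⟩
    obtain ⟨b, hb⟩ : ∃ b : A → ℝ, b = fun a => ∑ t, g a t ^ 2 := ⟨_, rfl⟩
    have hbn : ∀ a, 0 ≤ b a := fun a => by rw [hb]; exact sum_nonneg fun t _ => sq_nonneg _
    have ha0n : 0 ≤ a0 := by rw [ha0]; exact sum_nonneg fun t _ => sq_nonneg _
    have hmix : ∀ a, n * ∑ t, p t ^ 2 * g a t ^ 2 ≤ C ^ (J + 1) * (a0 * b a) / 4 := by
      intro a
      have hnn : 0 ≤ C ^ (J + 1) * (a0 * b a) / 4 :=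
        div_nonneg (mul_nonneg (pow_pos hC0 _).le (mul_nonneg ha0n (hbn a))) (by norm_num)
      apply abs_le_of_sq_le_sq' _ hnn |>.2
      calc (n * ∑ t, p t ^ 2 * g a t ^ 2) ^ 2 = n * n * (∑ t, p t ^ 2 * g a t ^ 2) ^ 2 := by ring
        _ ≤ n * n * ((∑ t, p t ^ 4) * ∑ t, g a t ^ 4) :=
            mul_le_mul_of_nonneg_left (cs4 p (g a)) (by positivity)
        _ = (n * ∑ t, p t ^ 4) * (n * ∑ t, g a t ^ 4) := by ring
        _ ≤ (C ^ (J + 1) * a0 ^ 2) * (C ^ J * b a ^ 2) := by
            rw [ha0, hb]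
            refine mul_le_mul hp' (hg' a) (mul_nonneg hn0 (sum_nonneg fun t _ => ?_)) ?_
            · exact Even.pow_nonneg (by decide) _
            · exact mul_nonneg (pow_pos hC0 _).le (sq_nonneg _)
        _ ≤ (C ^ (J + 1) * (a0 * b a) / 4) ^ 2 := by
            have h16 : 16 ≤ C := by rw [hC]; linarith
            have e3 : (C ^ (J + 1) * (a0 * b a) / 4) ^ 2 =
                (C ^ (J + 1) * a0 ^ 2) * (C ^ J * b a ^ 2) * (C / 16) := by
              rw [pow_succ]
              ring
            rw [e3]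
            apply le_mul_of_one_le_right (by positivity)
            rw [one_le_div (by norm_num)]
            exact h16
    obtain ⟨B, hB⟩ : ∃ B, B = (∑ a, b a) / r := ⟨_, rfl⟩
    have hBn : 0 ≤ B := by rw [hB]; exact div_nonneg (sum_nonneg fun a _ => hbn a) hr0.le
    have hBr : ∑ a, b a = r * B := by rw [hB]; field_simp
    have hf2 : ∑ t, f t ^ 2 = a0 + B := by
      have e4 : ∑ a, ∑ t, g a t ^ 2 = r * B := by rw [← hBr, hb]
      rw [e4, ← ha0] at h2
      have : r * ∑ t, f t ^ 2 = r * (a0 + B) := by rw [h2]; ring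
      exact mul_left_cancel₀ hr0.ne' this
    have hbb : ∑ a, b a ^ 2 ≤ (r * B) ^ 2 := by
      rw [← hBr]
      calc ∑ a, b a ^ 2 ≤ ∑ a, b a * ∑ a', b a' := by
            refine sum_le_sum fun a _ => ?_
            rw [sq]
            exact mul_le_mul_of_nonneg_left
              (single_le_sum (f := b) (fun a _ => hbn a) (mem_univ a)) (hbn a)
        _ = (∑ a, b a) ^ 2 := by rw [← Finset.sum_mul, sq]
    have hmain : r * (n * ∑ t, f t ^ 4) ≤ r * (C ^ (J + 1) * (a0 + B) ^ 2) := by
      calc r * (n * ∑ t, f t ^ 4) = n * (r * ∑ t, f t ^ 4) := by ring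
        _ ≤ n * (r * ∑ t, p t ^ 4 + ∑ a, (8 * ∑ t, p t ^ 2 * g a t ^ 2 +
              3 * ∑ t, g a t ^ 4)) := mul_le_mul_of_nonneg_left h4 hn0
        _ = r * (n * ∑ t, p t ^ 4) + ∑ a, (8 * (n * ∑ t, p t ^ 2 * g a t ^ 2) +
              3 * (n * ∑ t, g a t ^ 4)) := by
            have e12 : ∀ a, n * (8 * ∑ t, p t ^ 2 * g a t ^ 2 + 3 * ∑ t, g a t ^ 4) =
                8 * (n * ∑ t, p t ^ 2 * g a t ^ 2) + 3 * (n * ∑ t, g a t ^ 4) := fun a => by ring
            have e13 : n * ∑ a, (8 * ∑ t, p t ^ 2 * g a t ^ 2 + 3 * ∑ t, g a t ^ 4) =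
                ∑ a, (8 * (n * ∑ t, p t ^ 2 * g a t ^ 2) + 3 * (n * ∑ t, g a t ^ 4)) := by
              rw [Finset.mul_sum]
              exact sum_congr rfl fun a _ => e12 a
            rw [mul_add, e13]
            ring
        _ ≤ r * (C ^ (J + 1) * a0 ^ 2) + ∑ a, (8 * (C ^ (J + 1) * (a0 * b a) / 4) +
              3 * (C ^ J * b a ^ 2)) := by
            apply add_le_add
            · rw [ha0]
              exact mul_le_mul_of_nonneg_left hp' hr0.le
            · refine sum_le_sum fun a _ => ?_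
              have e5 := hmix a
              have e6 := hg' a
              have e7 : b a = ∑ t, g a t ^ 2 := by rw [hb]
              rw [← e7] at e6
              linarith
        _ = r * (C ^ (J + 1) * a0 ^ 2) + 2 * C ^ (J + 1) * a0 * (r * B) +
              3 * C ^ J * ∑ a, b a ^ 2 := by
            have e11 : ∀ a, 8 * (C ^ (J + 1) * (a0 * b a) / 4) + 3 * (C ^ J * b a ^ 2) =
                2 * C ^ (J + 1) * a0 * b a + 3 * C ^ J * b a ^ 2 := fun a => by ring
            rw [sum_congr rfl fun a _ => e11 a, sum_add_distrib, ← Finset.mul_sum,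
              ← Finset.mul_sum, hBr]
            ring
        _ ≤ r * (C ^ (J + 1) * a0 ^ 2) + 2 * C ^ (J + 1) * a0 * (r * B) +
              3 * C ^ J * (r * B) ^ 2 := by
            have : 0 ≤ 3 * C ^ J := by positivity
            have := mul_le_mul_of_nonneg_left hbb this
            linarith
        _ ≤ r * (C ^ (J + 1) * (a0 + B) ^ 2) := by
            have e8 : 3 * C ^ J * (r * B) ^ 2 ≤ r * (C ^ (J + 1) * B ^ 2) := by
              have e9 : r * (C ^ (J + 1) * B ^ 2) = 16 * (C ^ J * (r * B) ^ 2) := by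
                rw [pow_succ, hC]
                ring
              rw [e9]
              have : 0 ≤ C ^ J * (r * B) ^ 2 := by positivity
              linarith
            have e10 : r * (C ^ (J + 1) * (a0 + B) ^ 2) = r * (C ^ (J + 1) * a0 ^ 2) +
                2 * C ^ (J + 1) * a0 * (r * B) + r * (C ^ (J + 1) * B ^ 2) := by ring
            rw [e10]
            linarith
    have hfin := le_of_mul_le_mul_left hmain hr0
    rw [hf2, ← hn, ← hr, ← hC]
    exact hfin

end

end Pool.Agent.NH48.SC
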