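import Pool.Agent.NH48.SC.Four

/-! # Signed sums of many distinct vectors are spread out -/

set_option autoImplicit false

open Finset

namespace Pool.Agent.NH48.SC

section

variable (q k : ℕ)

/-- vectors -/
abbrev XX : Type := Fin k → ZMod q

/-- functions on the vectors -/
abbrev TT : Type := XX q k → ZMod q

/-- signs -/
abbrev SS : Type := XX q k → Bool

end

section

variable {q k : ℕ} [Fact q.Prime]

/-- the sign -/
def sg (b : Bool) : ZMod q := if b then -1 else 1

theorem sg_mul_sg (b : Bool) : (sg b : ZMod q) * sg b = 1 := by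
  cases b <;> simp [sg]

theorem sg_inj (hq : q ≠ 2) {a b : Bool} (h : (sg a : ZMod q) = sg b) : a = b := by
  have h2 : (2 : ZMod q) ≠ 0 := by
    intro h0
    have h1 : ((2 : ℕ) : ZMod q) = 0 := by exact_mod_cast h0
    rw [ZMod.natCast_eq_zero_iff] at h1
    have h3 := (Nat.prime_dvd_prime_iff_eq Fact.out Nat.prime_two).1 h1
    exact hq h3
  cases a <;> cases b
  · rfl
  · exfalso
    apply h2
    simp only [sg, Bool.false_eq_true, if_false, if_true] at h
    linear_combination h
  · exfalso
    apply h2
    simp only [sg, Bool.false_eq_true, if_false, if_true] at h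
    linear_combination -h
  · rfl

/-- the signed sum -/
def sph (α : TT q k) (s : SS q k) : XX q k := ∑ g : XX q k, (α g * sg (s g)) • g

/-- a large set of vectors contains many independent ones -/
theorem exists_indep (S : Finset (XX q k)) (r : ℕ) (hS : q ^ r ≤ S.card) :
    ∃ I : Finset (XX q k), I ⊆ S ∧ I.card = r ∧
      LinearIndependent (ZMod q) (fun v : I => (v : XX q k)) := by
  classical
  obtain ⟨b, hb1, hb2, hb3⟩ := exists_linearIndependent (ZMod q) (S : Set (XX q k))
  have hbf : b.Finite := Set.Finite.subset (Finset.finite_toSet S) hb1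
  obtain ⟨B, rfl⟩ : ∃ B : Finset (XX q k), (B : Set (XX q k)) = b := ⟨hbf.toFinset, hbf.coe_toFinset⟩
  have hcard : r ≤ B.card := by
    have h1 : Module.finrank (ZMod q) (Submodule.span (ZMod q) (B : Set (XX q k))) = B.card :=
      finrank_span_finset_eq_card hb3
    have h2 := Module.card_eq_pow_finrank (K := ZMod q)
      (V := Submodule.span (ZMod q) (B : Set (XX q k)))
    rw [h1, ZMod.card] at h2
    have h3 : S.card ≤ Fintype.card (Submodule.span (ZMod q) (B : Set (XX q k))) := by
      have h4 : ∀ x ∈ S, x ∈ Submodule.span (ZMod q) (B : Set (XX q k)) := by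
        intro x hx
        rw [hb2]
        exact Submodule.subset_span (mem_coe.2 hx)
      rw [← Fintype.card_coe]
      apply Fintype.card_le_of_injective
        (fun x : S => (⟨x.1, h4 x.1 x.2⟩ : Submodule.span (ZMod q) (B : Set (XX q k))))
      intro x y hxy
      exact Subtype.ext (Subtype.mk.inj hxy)
    have h5 : q ^ r ≤ q ^ B.card := by
      rw [← h2]
      exact hS.trans h3
    exact (Nat.pow_le_pow_iff_right (Nat.Prime.one_lt Fact.out)).1 h5
  obtain ⟨I, hI, hIc⟩ := Finset.exists_subset_card_eq hcard
  refine ⟨I, fun x hx => ?_, hIc, ?_⟩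
  · exact mem_coe.1 (hb1 (mem_coe.2 (hI hx)))
  · have hb4 : LinearIndepOn (ZMod q) id (B : Set (XX q k)) := hb3
    have hb5 : LinearIndepOn (ZMod q) id (I : Set (XX q k)) := hb4.mono (coe_subset.2 hI)
    exact hb5

/-- the signed sums take each value rarely -/
theorem card_sph (hq : q ≠ 2) (α : TT q k) (r : ℕ) (hα : q ^ r ≤ (su α).card) (x : XX q k) :
    (univ.filter fun s : SS q k => sph α s = x).card * 2 ^ r ≤ Fintype.card (SS q k) := by
  classical
  obtain ⟨I, hI, hIc, hli⟩ := exists_indep (su α) r hα
  have h1 : (univ.filter fun s : SS q k => sph α s = x).card ≤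
      Fintype.card ({g : XX q k // g ∉ I} → Bool) := by
    rw [← Fintype.card_subtype]
    apply Fintype.card_le_of_injective
      (fun s : {s : SS q k // sph α s = x} => fun g : {g : XX q k // g ∉ I} => s.1 g.1)
    rintro ⟨s, hs⟩ ⟨s', hs'⟩ h
    apply Subtype.ext
    show s = s'
    have hout : ∀ g, g ∉ I → s g = s' g := fun g hg => congrFun h ⟨g, hg⟩
    have hd : ∑ g : XX q k, (α g * (sg (s g) - sg (s' g))) • g = 0 := by
      have h2 : sph α s - sph α s' = 0 := by rw [hs, hs', sub_self]
      unfold sph at h2
      rw [← sum_sub_distrib] at h2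
      rw [← h2]
      refine sum_congr rfl fun g _ => ?_
      rw [← sub_smul, mul_sub]
    have hd2 : ∑ g : I, (α g.1 * (sg (s g.1) - sg (s' g.1))) • (g : XX q k) = 0 := by
      rw [← hd, Finset.sum_coe_sort I (fun g => (α g * (sg (s g) - sg (s' g))) • g)]
      apply sum_subset (subset_univ _)
      intro g _ hg
      rw [hout g hg, sub_self, mul_zero, zero_smul]
    have hz := Fintype.linearIndependent_iff.1 hli _ hd2
    funext g
    by_cases hg : g ∈ I
    · have h3 := hz ⟨g, hg⟩
      have h4 : α g ≠ 0 := (mem_filter.1 (hI hg)).2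
      have h5 := (mul_eq_zero.1 h3).resolve_left h4
      exact sg_inj hq (sub_eq_zero.1 h5)
    · exact hout g hg
  have h2 : Fintype.card ({g : XX q k // g ∉ I} → Bool) * 2 ^ r = Fintype.card (SS q k) := by
    rw [Fintype.card_fun, Fintype.card_fun, Fintype.card_bool, ← pow_add]
    congr 1
    have h3 : Fintype.card {g : XX q k // g ∉ I} = Fintype.card (XX q k) - I.card := by
      rw [Fintype.card_subtype_compl, Fintype.card_coe]
    rw [h3, hIc]
    have h4 : I.card ≤ Fintype.card (XX q k) := card_le_univ _
    omega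
  rw [← h2]
  exact Nat.mul_le_mul_right _ h1

end

end Pool.Agent.NH48.SC
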