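import Pool.Agent.NH48.SC.Rank

/-! # The dihedral game and its value -/

set_option autoImplicit false

open scoped Classical
open Finset

namespace Pool.Agent.NH48.SC

/-- edges of the game: a function and signs -/
abbrev EE (q k : ℕ) : Type := TT q k × SS q k

section

variable {q k : ℕ} [Fact q.Prime]

/-- a linear form with signs -/
def tw (s : SS q k) (b : XX q k) : TT q k := fun g => sg (s g) * (b ⬝ᵥ g)

theorem tw_add (s : SS q k) (b c : XX q k) : tw s (b + c) = tw s b + tw s c := by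
  funext g
  simp only [tw, add_dotProduct, Pi.add_apply, mul_add]

theorem tw_zero (s : SS q k) : tw s (0 : XX q k) = 0 := by
  funext g
  simp [tw]

theorem tw_sub (s : SS q k) (b c : XX q k) : tw s (b - c) = tw s b - tw s c := by
  funext g
  simp only [tw, sub_dotProduct, Pi.sub_apply, mul_sub]

/-- the position of a function in its class -/
def idx (e : EE q k) : XX q k := fun i => sg (e.2 (Pi.single i 1)) * e.1 (Pi.single i 1)

/-- the right end of an edge -/
def rep (e : EE q k) : EE q k := (e.1 - tw e.2 (idx e), e.2)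

theorem idx_add (t : TT q k) (s : SS q k) (b : XX q k) : idx (t + tw s b, s) = idx (t, s) + b := by
  funext i
  simp only [idx, tw, Pi.add_apply, dotProduct_single, mul_one]
  rw [mul_add, ← mul_assoc, sg_mul_sg, one_mul]

theorem rep_add (t : TT q k) (s : SS q k) (b : XX q k) : rep (t + tw s b, s) = rep (t, s) := by
  unfold rep
  rw [idx_add, tw_add]
  simp only [Prod.mk.injEq, and_true]
  abel

theorem rep_idx (e : EE q k) : e = ((rep e).1 + tw (rep e).2 (idx e), (rep e).2) := by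
  unfold rep
  simp

/-- equality up to the sign -/
def stp (q k : ℕ) : Setoid (XX q k) where
  r a b := a = b ∨ a = -b
  iseqv :=
    { refl := fun a => Or.inl rfl
      symm := by
        rintro a b (h | h)
        · exact Or.inl h.symm
        · right
          rw [h, neg_neg]
      trans := by
        rintro a b c (h | h) (h' | h')
        · exact Or.inl (h.trans h')
        · exact Or.inr (h.trans h')
        · right
          rw [h, h']
        · left
          rw [h, h', neg_neg] }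

/-- vectors up to sign: the labels of the left vertices -/
abbrev LB (q k : ℕ) : Type := Quotient (stp q k)

/-- the class of a vector -/
def nrm (a : XX q k) : LB q k := Quotient.mk (stp q k) a

theorem nrm_eq {a b : XX q k} : nrm a = nrm b ↔ a = b ∨ a = -b := by
  unfold nrm
  rw [Quotient.eq]
  rfl

noncomputable instance : Fintype (LB q k) := Fintype.ofSurjective (nrm : XX q k → LB q k)
  Quotient.mk_surjective

theorem card_nrm_le (l : LB q k) : (univ.filter fun b : XX q k => nrm b = l).card ≤ 2 := by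
  obtain ⟨a, rfl⟩ := Quotient.mk_surjective l
  have h : (univ.filter fun b : XX q k => nrm b = nrm a) ⊆ {a, -a} := by
    intro b hb
    rw [mem_filter, nrm_eq] at hb
    rw [mem_insert, mem_singleton]
    exact hb.2
  exact (card_le_card h).trans card_le_two

/-- the indicator of the selected elements -/
noncomputable def sel (A : EE q k → XX q k) (e : EE q k) : ℝ := if A (rep e) = idx e then 1 else 0

/-- the number of signs for which the shifted element is selected -/
noncomputable def nn (A : EE q k → XX q k) (b : XX q k) (t : TT q k) : ℝ :=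
  ∑ s : SS q k, sel A (t + tw s b, s)

variable (A : EE q k → XX q k)

theorem sel_nonneg (e : EE q k) : 0 ≤ sel A e := by
  unfold sel
  split_ifs <;> norm_num

theorem sel_le (e : EE q k) : sel A e ≤ 1 := by
  unfold sel
  split_ifs <;> norm_num

theorem sel_sq (e : EE q k) : sel A e ^ 2 = sel A e := by
  unfold sel
  split_ifs <;> norm_num

/-- one element of each class is selected -/
theorem sum_sel_class (t : TT q k) (s : SS q k) :
    ∑ b : XX q k, sel A (t + tw s b, s) = 1 := by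
  unfold sel
  simp only [idx_add, rep_add]
  rw [Finset.sum_eq_single (A (rep (t, s)) - idx (t, s))]
  · rw [if_pos]
    abel
  · intro b _ hb
    rw [if_neg]
    intro h
    apply hb
    rw [h]
    abel
  · intro h
    exact absurd (mem_univ _) h

/-- shifting is a bijection -/
theorem sum_shift (b : XX q k) (F : EE q k → ℝ) :
    ∑ t : TT q k, ∑ s : SS q k, F (t + tw s b, s) = ∑ e : EE q k, F e := by
  rw [Finset.sum_comm, Fintype.sum_prod_type_right]
  refine sum_congr rfl fun s _ => ?_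
  exact Equiv.sum_comp (Equiv.addRight (tw s b)) (fun t => F (t, s))

theorem sum_nn (b : XX q k) : ∑ t, nn A b t = ∑ e, sel A e := sum_shift b (sel A)

/-- the number of selected elements -/
theorem sum_sel : (Fintype.card (XX q k) : ℝ) * ∑ e, sel A e = Fintype.card (EE q k) := by
  have h1 : ∑ b : XX q k, ∑ e, sel A e = ∑ b : XX q k, ∑ t, nn A b t :=
    sum_congr rfl fun b _ => (sum_nn A b).symm
  rw [sum_const, card_univ, nsmul_eq_mul] at h1
  rw [h1]
  unfold nn
  rw [Finset.sum_comm]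
  have h2 : ∀ t : TT q k, ∑ b : XX q k, ∑ s : SS q k, sel A (t + tw s b, s) =
      Fintype.card (SS q k) := by
    intro t
    rw [Finset.sum_comm, sum_congr rfl fun s _ => sum_sel_class A t s, sum_const, card_univ,
      nsmul_eq_mul, mul_one]
  rw [sum_congr rfl fun t _ => h2 t, sum_const, card_univ, nsmul_eq_mul, Fintype.card_prod]
  push_cast
  rfl

theorem nn_nonneg (b : XX q k) (t : TT q k) : 0 ≤ nn A b t :=
  sum_nonneg fun s _ => sel_nonneg A _

theorem nn_le (b : XX q k) (t : TT q k) : nn A b t ≤ Fintype.card (SS q k) := by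
  unfold nn
  refine (sum_le_sum fun s _ => sel_le A _).trans ?_
  rw [sum_const, card_univ, nsmul_eq_mul, mul_one]

/-- the Fourier transform for fixed signs -/
noncomputable def FF (α : TT q k) (s : SS q k) : ℂ := ∑ u : TT q k, (sel A (u, s) : ℂ) * ee (α ⬝ᵥ u)

theorem dot_tw (α : TT q k) (s : SS q k) (b : XX q k) : α ⬝ᵥ tw s b = sph α s ⬝ᵥ b := by
  unfold sph tw dotProduct
  simp only [Finset.sum_apply, Pi.smul_apply, smul_eq_mul, Finset.sum_mul]
  rw [Finset.sum_comm]
  refine sum_congr rfl fun g _ => ?_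
  rw [Finset.mul_sum, Finset.mul_sum]
  refine sum_congr rfl fun i _ => ?_
  ring

theorem fourier_nn (b : XX q k) (α : TT q k) :
    ∑ t, (nn A b t : ℂ) * ee (α ⬝ᵥ t) =
      ∑ s : SS q k, FF A α s * ee (-b ⬝ᵥ sph α s) := by
  have h1 : ∀ t : TT q k, (nn A b t : ℂ) * ee (α ⬝ᵥ t) =
      ∑ s : SS q k, (sel A (t + tw s b, s) : ℂ) * ee (α ⬝ᵥ t) := by
    intro t
    unfold nn
    push_cast
    rw [Finset.sum_mul]
  rw [sum_congr rfl fun t _ => h1 t, Finset.sum_comm]
  refine sum_congr rfl fun s _ => ?_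
  unfold FF
  rw [Finset.sum_mul]
  rw [← Equiv.sum_comp (Equiv.addRight (tw s b)) (fun u : TT q k =>
    (sel A (u, s) : ℂ) * ee (α ⬝ᵥ u) * ee (-b ⬝ᵥ sph α s))]
  refine sum_congr rfl fun t _ => ?_
  show _ = (sel A (t + tw s b, s) : ℂ) * ee (α ⬝ᵥ (t + tw s b)) * ee (-b ⬝ᵥ sph α s)
  rw [mul_assoc, ← ee_add]
  congr 2
  rw [dotProduct_add, dot_tw, neg_dotProduct, dotProduct_comm b]
  ring

/-- the weight at one frequency, summed over the shifts -/
theorem high_one (hq : q ≠ 2) (r : ℕ) (α : TT q k) (hα : q ^ r ≤ (su α).card) :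
    (∑ b : XX q k, ‖∑ t, (nn A b t : ℂ) * ee (α ⬝ᵥ t)‖ ^ 2) * 2 ^ r ≤
      Fintype.card (XX q k) * Fintype.card (SS q k) * ∑ s : SS q k, ‖FF A α s‖ ^ 2 := by
  obtain ⟨G, hG⟩ : ∃ G : XX q k → ℂ, G = fun x => ∑ s with sph α s = x, FF A α s := ⟨_, rfl⟩
  have h1 : ∀ b : XX q k, ∑ t, (nn A b t : ℂ) * ee (α ⬝ᵥ t) = ∑ x, G x * ee (-b ⬝ᵥ x) := by
    intro b
    rw [fourier_nn, hG]
    rw [← Finset.sum_fiberwise univ (fun s => sph α s)]
    refine sum_congr rfl fun x _ => ?_
    rw [Finset.sum_mul]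
    refine sum_congr rfl fun s hs => ?_
    rw [(mem_filter.1 hs).2]
  rw [sum_congr rfl fun b _ => by rw [h1 b]]
  have h2 : ∑ b : XX q k, ‖∑ x, G x * ee (-b ⬝ᵥ x)‖ ^ 2 =
      ∑ b : XX q k, ‖∑ x, G x * ee (b ⬝ᵥ x)‖ ^ 2 :=
    Equiv.sum_comp (Equiv.neg (XX q k)) (fun b => ‖∑ x, G x * ee (b ⬝ᵥ x)‖ ^ 2)
  rw [h2, parseval, mul_assoc, mul_assoc]
  apply mul_le_mul_of_nonneg_left _ (Nat.cast_nonneg _)
  rw [Finset.sum_mul, Finset.mul_sum]
  have h3 : ∀ x, ‖G x‖ ^ 2 * 2 ^ r ≤
      ∑ s with sph α s = x, (Fintype.card (SS q k) : ℝ) * ‖FF A α s‖ ^ 2 := by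
    intro x
    have h4 : ‖G x‖ ^ 2 ≤ (univ.filter fun s : SS q k => sph α s = x).card *
        ∑ s with sph α s = x, ‖FF A α s‖ ^ 2 := by
      rw [hG]
      calc ‖∑ s with sph α s = x, FF A α s‖ ^ 2 ≤ (∑ s with sph α s = x, ‖FF A α s‖) ^ 2 :=
            pow_le_pow_left₀ (norm_nonneg _) (norm_sum_le _ _) 2
        _ ≤ _ := sq_sum_le_card_mul_sum_sq
    have h5 : ((univ.filter fun s : SS q k => sph α s = x).card : ℝ) * 2 ^ r ≤
        Fintype.card (SS q k) := by
      exact_mod_cast card_sph hq α r hα x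
    have h6 : 0 ≤ ∑ s with sph α s = x, ‖FF A α s‖ ^ 2 := sum_nonneg fun s _ => sq_nonneg _
    calc ‖G x‖ ^ 2 * 2 ^ r ≤ ((univ.filter fun s : SS q k => sph α s = x).card *
        ∑ s with sph α s = x, ‖FF A α s‖ ^ 2) * 2 ^ r :=
          mul_le_mul_of_nonneg_right h4 (by positivity)
      _ = (((univ.filter fun s : SS q k => sph α s = x).card : ℝ) * 2 ^ r) *
          ∑ s with sph α s = x, ‖FF A α s‖ ^ 2 := by ring
      _ ≤ Fintype.card (SS q k) * ∑ s with sph α s = x, ‖FF A α s‖ ^ 2 :=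
          mul_le_mul_of_nonneg_right h5 h6
      _ = _ := by rw [Finset.mul_sum]
  refine (sum_le_sum fun x _ => h3 x).trans (le_of_eq ?_)
  exact Finset.sum_fiberwise univ (fun s => sph α s)
    (fun s => (Fintype.card (SS q k) : ℝ) * ‖FF A α s‖ ^ 2)

theorem sum_FF : ∑ α : TT q k, ∑ s : SS q k, ‖FF A α s‖ ^ 2 =
    Fintype.card (TT q k) * ∑ e, sel A e := by
  rw [Finset.sum_comm, Fintype.sum_prod_type_right, Finset.mul_sum]
  refine sum_congr rfl fun s _ => ?_
  unfold FF
  rw [parseval]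
  congr 1
  refine sum_congr rfl fun u _ => ?_
  rw [Complex.norm_real, Real.norm_eq_abs, sq_abs, sel_sq]

/-- the second moment of the counts -/
theorem second_moment (hq : q ≠ 2) (r : ℕ) :
    ∑ b : XX q k, ∑ t, nn A b t ^ 2 ≤ Fintype.card (TT q k) * (Fintype.card (SS q k)) ^ 2 *
      (Real.sqrt ((16 * q : ℝ) ^ (q ^ r) / Fintype.card (XX q k)) + 1 / 2 ^ r) := by
  obtain ⟨n, hn⟩ : ∃ n : ℝ, n = Fintype.card (TT q k) := ⟨_, rfl⟩
  obtain ⟨m, hm⟩ : ∃ m : ℝ, m = Fintype.card (SS q k) := ⟨_, rfl⟩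
  obtain ⟨N, hN⟩ : ∃ N : ℝ, N = Fintype.card (XX q k) := ⟨_, rfl⟩
  obtain ⟨C, hC⟩ : ∃ C : ℝ, C = (16 * q : ℝ) ^ (q ^ r) := ⟨_, rfl⟩
  have hn0 : 0 < n := by
    rw [hn]
    have : 0 < Fintype.card (TT q k) := Fintype.card_pos
    exact_mod_cast this
  have hm0 : 0 < m := by
    rw [hm]
    have : 0 < Fintype.card (SS q k) := Fintype.card_pos
    exact_mod_cast this
  have hN0 : 0 < N := by
    rw [hN]
    have : 0 < Fintype.card (XX q k) := Fintype.card_pos
    exact_mod_cast this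
  have hC0 : 0 ≤ C := by rw [hC]; positivity
  have hsel : ∑ e, sel A e = n * m / N := by
    have h := sum_sel A
    rw [Fintype.card_prod] at h
    push_cast at h
    rw [← hN, ← hn, ← hm] at h
    field_simp
    linarith
  rw [← hn, ← hm, ← hN, ← hC]
  -- Parseval
  have h1 : ∀ b : XX q k, n * ∑ t, nn A b t ^ 2 =
      ∑ α : TT q k, ‖∑ t, (nn A b t : ℂ) * ee (α ⬝ᵥ t)‖ ^ 2 := by
    intro b
    rw [parseval, ← hn]
    congr 1
    refine sum_congr rfl fun t _ => ?_
    rw [Complex.norm_real, Real.norm_eq_abs, sq_abs]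
  -- low frequencies
  have hlow : ∀ b : XX q k, ∑ α with (su α).card ≤ q ^ r,
      ‖∑ t, (nn A b t : ℂ) * ee (α ⬝ᵥ t)‖ ^ 2 ≤ n ^ 2 * m ^ 2 / N * Real.sqrt (C / N) := by
    intro b
    have h2 := low_weight (q ^ r) (nn A b) m hm0.le (nn_nonneg A b)
      (fun t => by rw [hm]; exact nn_le A b t)
    rw [← hC, ← hn, sum_nn, hsel] at h2
    apply abs_le_of_sq_le_sq' _ (by positivity) |>.2
    refine h2.trans (le_of_eq ?_)
    rw [mul_pow, Real.sq_sqrt (by positivity)]
    field_simp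
  -- high frequencies
  have hhigh : ∑ b : XX q k, ∑ α with ¬ (su α).card ≤ q ^ r,
      ‖∑ t, (nn A b t : ℂ) * ee (α ⬝ᵥ t)‖ ^ 2 ≤ n ^ 2 * m ^ 2 / 2 ^ r := by
    rw [Finset.sum_comm]
    have h3 : ∀ α ∈ (univ.filter fun α : TT q k => ¬ (su α).card ≤ q ^ r),
        ∑ b : XX q k, ‖∑ t, (nn A b t : ℂ) * ee (α ⬝ᵥ t)‖ ^ 2 ≤
          N * m / 2 ^ r * ∑ s : SS q k, ‖FF A α s‖ ^ 2 := by
      intro α hα
      rw [mem_filter] at hα
      have h4 := high_one A hq r α (by omega)
      rw [← hN, ← hm] at h4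
      rw [div_mul_eq_mul_div, le_div_iff₀ (by positivity)]
      exact h4
    refine (sum_le_sum h3).trans ?_
    rw [← Finset.mul_sum]
    have h5 : ∑ α with ¬ (su α).card ≤ q ^ r, ∑ s : SS q k, ‖FF A α s‖ ^ 2 ≤
        ∑ α : TT q k, ∑ s : SS q k, ‖FF A α s‖ ^ 2 :=
      sum_le_sum_of_subset_of_nonneg (filter_subset _ _) fun α _ _ =>
        sum_nonneg fun s _ => sq_nonneg _
    rw [sum_FF, ← hn, hsel] at h5
    refine (mul_le_mul_of_nonneg_left h5 (by positivity)).trans (le_of_eq ?_)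
    field_simp
  -- together
  have h6 : n * ∑ b : XX q k, ∑ t, nn A b t ^ 2 ≤
      n * (n * m ^ 2 * (Real.sqrt (C / N) + 1 / 2 ^ r)) := by
    rw [Finset.mul_sum, sum_congr rfl fun b _ => h1 b]
    have h7 : ∀ b : XX q k, ∑ α : TT q k, ‖∑ t, (nn A b t : ℂ) * ee (α ⬝ᵥ t)‖ ^ 2 =
        ∑ α with (su α).card ≤ q ^ r, ‖∑ t, (nn A b t : ℂ) * ee (α ⬝ᵥ t)‖ ^ 2 +
        ∑ α with ¬ (su α).card ≤ q ^ r, ‖∑ t, (nn A b t : ℂ) * ee (α ⬝ᵥ t)‖ ^ 2 := fun b =>
      (Finset.sum_filter_add_sum_filter_not _ _ _).symm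
    rw [sum_congr rfl fun b _ => h7 b, sum_add_distrib]
    have h8 : ∑ b : XX q k, ∑ α with (su α).card ≤ q ^ r,
        ‖∑ t, (nn A b t : ℂ) * ee (α ⬝ᵥ t)‖ ^ 2 ≤ n ^ 2 * m ^ 2 * Real.sqrt (C / N) := by
      refine (sum_le_sum fun b _ => hlow b).trans (le_of_eq ?_)
      rw [sum_const, card_univ, nsmul_eq_mul, ← hN]
      field_simp
    calc _ ≤ n ^ 2 * m ^ 2 * Real.sqrt (C / N) + n ^ 2 * m ^ 2 / 2 ^ r := add_le_add h8 hhigh
      _ = _ := by ring
  exact le_of_mul_le_mul_left h6 hn0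

/-- the value of the dihedral game -/
theorem value_sq (hq : q ≠ 2) (r : ℕ) (L : TT q k → LB q k) :
    ((univ.filter fun e : EE q k => nrm (A (rep e) - idx e) = L e.1).card : ℝ) ^ 2 ≤
      2 * (Fintype.card (EE q k) : ℝ) ^ 2 *
      (Real.sqrt ((16 * q : ℝ) ^ (q ^ r) / Fintype.card (XX q k)) + 1 / 2 ^ r) := by
  have h1 : ((univ.filter fun e : EE q k => nrm (A (rep e) - idx e) = L e.1).card : ℝ) ≤
      ∑ x : TT q k × XX q k, (if nrm x.2 = L x.1 then 1 else 0) * nn A x.2 x.1 := by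
    rw [card_filter]
    push_cast
    rw [Fintype.sum_prod_type, Fintype.sum_prod_type]
    refine sum_le_sum fun t _ => ?_
    have h2 : ∑ b : XX q k, (if nrm b = L t then (1 : ℝ) else 0) * nn A b t =
        ∑ s : SS q k, ∑ b : XX q k, (if nrm b = L t then 1 else 0) *
          sel A (t + tw s b, s) := by
      rw [Finset.sum_comm]
      refine sum_congr rfl fun b _ => ?_
      unfold nn
      rw [Finset.mul_sum]
    simp only
    rw [h2]
    refine sum_le_sum fun s _ => ?_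
    split_ifs with h
    · have h3 : (1 : ℝ) ≤ (if nrm (A (rep (t, s)) - idx (t, s)) = L t then 1 else 0) *
          sel A (t + tw s (A (rep (t, s)) - idx (t, s)), s) := by
        rw [if_pos h, one_mul]
        unfold sel
        rw [if_pos]
        rw [rep_add, idx_add]
        abel
      refine h3.trans ?_
      exact single_le_sum (f := fun b : XX q k => (if nrm b = L t then (1 : ℝ) else 0) *
          sel A (t + tw s b, s)) (fun b _ => mul_nonneg (by split_ifs <;> norm_num)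
            (sel_nonneg A _)) (mem_univ _)
    · exact sum_nonneg fun b _ => mul_nonneg (by split_ifs <;> norm_num) (sel_nonneg A _)
  have h2 := Finset.sum_mul_sq_le_sq_mul_sq univ
    (fun x : TT q k × XX q k => if nrm x.2 = L x.1 then (1 : ℝ) else 0)
    (fun x => nn A x.2 x.1)
  have h3 : ∑ x : TT q k × XX q k, (if nrm x.2 = L x.1 then (1 : ℝ) else 0) ^ 2 ≤
      2 * Fintype.card (TT q k) := by
    rw [Fintype.sum_prod_type]
    have h4 : ∀ t : TT q k, ∑ b : XX q k, (if nrm b = L t then (1 : ℝ) else 0) ^ 2 ≤ 2 := by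
      intro t
      have h5 : ∑ b : XX q k, (if nrm b = L t then (1 : ℝ) else 0) ^ 2 =
          (univ.filter fun b : XX q k => nrm b = L t).card := by
        rw [card_filter]
        push_cast
        refine sum_congr rfl fun b _ => ?_
        split_ifs <;> norm_num
      rw [h5]
      exact_mod_cast card_nrm_le (L t)
    refine (sum_le_sum fun t _ => h4 t).trans (le_of_eq ?_)
    rw [sum_const, card_univ, nsmul_eq_mul]
    ring
  have h6 : ∑ x : TT q k × XX q k, nn A x.2 x.1 ^ 2 = ∑ b : XX q k, ∑ t, nn A b t ^ 2 := by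
    rw [Fintype.sum_prod_type, Finset.sum_comm]
  have h7 := second_moment A hq r
  rw [← h6] at h7
  calc ((univ.filter fun e : EE q k => nrm (A (rep e) - idx e) = L e.1).card : ℝ) ^ 2
      ≤ (∑ x : TT q k × XX q k, (if nrm x.2 = L x.1 then 1 else 0) * nn A x.2 x.1) ^ 2 :=
        pow_le_pow_left₀ (Nat.cast_nonneg _) h1 2
    _ ≤ _ := h2
    _ ≤ (2 * Fintype.card (TT q k)) * (Fintype.card (TT q k) * (Fintype.card (SS q k)) ^ 2 *
      (Real.sqrt ((16 * q : ℝ) ^ (q ^ r) / Fintype.card (XX q k)) + 1 / 2 ^ r)) :=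
        mul_le_mul h3 h7 (sum_nonneg fun x _ => sq_nonneg _) (by positivity)
    _ = _ := by
        rw [Fintype.card_prod]
        push_cast
        ring

end

/-- the dihedral game has small value -/
theorem value (q : ℕ) [Fact q.Prime] (hq : q ≠ 2) (δ : ℝ) (hδ : 0 < δ) :
    ∃ k : ℕ, ∀ (A : EE q k → XX q k) (L : TT q k → LB q k),
      ((univ.filter fun e : EE q k => nrm (A (rep e) - idx e) = L e.1).card : ℝ) ≤
        δ * Fintype.card (EE q k) := by
  have hq1 : 1 < q := Nat.Prime.one_lt Fact.out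
  obtain ⟨r, hr⟩ : ∃ r : ℕ, (1 / 2 : ℝ) ^ r < δ ^ 2 / 4 :=
    exists_pow_lt_of_lt_one (by positivity) (by norm_num)
  obtain ⟨C, hC⟩ : ∃ C : ℝ, C = (16 * q : ℝ) ^ (q ^ r) := ⟨_, rfl⟩
  have hC0 : 0 < C := by rw [hC]; positivity
  obtain ⟨k, hk⟩ : ∃ k : ℕ, (1 / q : ℝ) ^ k < (δ ^ 2 / 4) ^ 2 / C := by
    apply exists_pow_lt_of_lt_one (by positivity)
    rw [div_lt_one (by positivity)]
    exact_mod_cast hq1
  refine ⟨k, fun A L => ?_⟩
  have h := value_sq A hq r L
  rw [← hC] at h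
  have hN : (Fintype.card (XX q k) : ℝ) = (q : ℝ) ^ k := by
    rw [Fintype.card_fun, Fintype.card_fin, ZMod.card]
    push_cast
    rfl
  rw [hN] at h
  have h1 : Real.sqrt (C / (q : ℝ) ^ k) ≤ δ ^ 2 / 4 := by
    apply Real.sqrt_le_iff.2
    refine ⟨by positivity, ?_⟩
    rw [one_div_pow, lt_div_iff₀ hC0] at hk
    calc C / (q : ℝ) ^ k = 1 / (q : ℝ) ^ k * C := by ring
      _ ≤ _ := hk.le
  have h2 : (1 : ℝ) / 2 ^ r ≤ δ ^ 2 / 4 := by
    rw [← one_div_pow]
    exact hr.le
  apply abs_le_of_sq_le_sq' _ (by positivity) |>.2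
  calc _ ≤ _ := h
    _ ≤ 2 * (Fintype.card (EE q k) : ℝ) ^ 2 * (δ ^ 2 / 4 + δ ^ 2 / 4) := by gcongr
    _ = _ := by ring

end Pool.Agent.NH48.SC
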